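import Mathlib
import Pool.Agent.R216.CVP.Glue

set_option autoImplicit false

namespace Pool.Agent.Results.MP_830418_an.FreeSubgroup

/-- For every `p ∈ (1, ∞)`, `p ≠ 2`, and every group `G` containing a non-abelian free subgroup,
some `f : G → ℂ` is a `p`-convolver while `f* (h) = conj f (h⁻¹)` is not. -/
theorem result :
    ∀ p : ℝ, 1 < p → p ≠ 2 → ∀ (G : Type) [Group G],
      (∃ φ : FreeGroup (Fin 2) →* G, Function.Injective φ) →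
      ∃ f : G → ℂ,
        (∃ C : ℝ, ∀ ξ : G →₀ ℂ,
          Summable (fun g : G => ‖∑ k ∈ ξ.support, f (g * k⁻¹) * ξ k‖ ^ p) ∧
          ∑' g : G, ‖∑ k ∈ ξ.support, f (g * k⁻¹) * ξ k‖ ^ p
            ≤ C * ∑ k ∈ ξ.support, ‖ξ k‖ ^ p) ∧
        ¬ (∃ C : ℝ, ∀ ξ : G →₀ ℂ,
          Summable (fun g : G =>
            ‖∑ k ∈ ξ.support, starRingEnd ℂ (f ((g * k⁻¹)⁻¹)) * ξ k‖ ^ p) ∧
          ∑' g : G, ‖∑ k ∈ ξ.support, starRingEnd ℂ (f ((g * k⁻¹)⁻¹)) * ξ k‖ ^ p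
            ≤ C * ∑ k ∈ ξ.support, ‖ξ k‖ ^ p) := by
  intro p hp hp2 G _ hφ
  obtain ⟨φ, hφ⟩ := hφ
  refine Pool.Agent.R216.CVP.glue hp fun M hM => ?_
  rcases lt_or_gt_of_ne hp2 with h | h
  · exact Pool.Agent.R216.CVP.gap_lt φ hφ hp h M hM
  · exact Pool.Agent.R216.CVP.gap_gt φ hφ h M hM

end Pool.Agent.Results.MP_830418_an.FreeSubgroup
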